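import Pool.Agent.Run7.h985.TC.Stm

/-!
# DUAL: the dual of an object in degree zero is in degree zero
-/

set_option autoImplicit false
set_option linter.unusedSectionVars false
set_option backward.isDefEq.respectTransparency false
set_option backward.defeqAttrib.useBackward true

open CategoryTheory Limits MonoidalCategory Pretriangulated Triangulated

namespace Run7.h663.TC

open Pool.Agent.Y116.MT Pool.Agent.V1178.MT Run7.h822.MT Run7.h985.TC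

universe v u w

open Functor.LaxMonoidal

section

variable {C : Type u} [Category.{v} C] [Preadditive C] [HasZeroObject C] [HasShift C ℤ]
  [∀ n : ℤ, (shiftFunctor C n).Additive] [Pretriangulated C] [MonoidalCategory C]
  [SymmetricCategory C] [TensorTriangulated C] {E : Type w} [Field E] {R : Realisation C E}

lemma isIso_mu_unit (Y : C) : IsIso (μ R.H Y (𝟙_ C)) := by
  have h := Functor.LaxMonoidal.right_unitality R.H Y
  have h1 : IsIso ((R.H.obj Y ◁ Functor.LaxMonoidal.ε R.H) ≫ μ R.H Y (𝟙_ C)) := by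
    have h2 : (R.H.obj Y ◁ Functor.LaxMonoidal.ε R.H) ≫ μ R.H Y (𝟙_ C) =
        (ρ_ (R.H.obj Y)).hom ≫ inv (R.H.map (ρ_ Y).hom) := by
      rw [h]
      simp
    rw [h2]
    infer_instance
  exact IsIso.of_isIso_comp_left (R.H.obj Y ◁ Functor.LaxMonoidal.ε R.H) _

/-- If `H` vanishes on `e : Y ⊗ X ⟶ Z`, it vanishes on the adjoint `Y ⟶ Z ⊗ X'` of `e`. -/
lemma map_adj_zero {X X' Y Z : C} (hX : R.Deg X 0) (c : 𝟙_ C ⟶ X ⊗ X') (e : Y ⊗ X ⟶ Z)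
    (he : R.H.map e = 0) :
    R.H.map ((Y ◁ c) ≫ (α_ Y X X').inv ≫ (e ▷ X')) = 0 := by
  have h1 := isIso_mu_unit (R := R) Y
  have h2 := hX.isIso_mu X'
  rw [← cancel_epi (μ R.H Y (𝟙_ C)), comp_zero, Functor.map_comp, ← μ_natural_right_assoc]
  have h3 : μ R.H Y (X ⊗ X') ≫ R.H.map ((α_ Y X X').inv ≫ (e ▷ X')) = 0 := by
    rw [← cancel_epi (R.H.obj Y ◁ μ R.H X X'), comp_zero, Functor.map_comp,
      Functor.LaxMonoidal.associativity_inv_assoc, ← μ_natural_left, he]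
    have h4 : (0 : R.H.obj (Y ⊗ X) ⟶ R.H.obj Z) ▷ R.H.obj X' = 0 := (tensorRight _).map_zero _ _
    rw [h4, zero_comp, comp_zero, comp_zero]
  rw [h3, comp_zero]

end

theorem t_DUAL : S_DUAL.{v, u, w} := by
  intro C _ _ _ _ _ _ _ _ _ _ _ _ E _ R X hX i hi
  let φ : Xᘁ⟦i⟧ ≅ (𝟙_ C)⟦i⟧ ⊗ Xᘁ :=
    (shiftFunctor C i).mapIso (λ_ Xᘁ).symm ≪≫ (lShift (𝟙_ C) Xᘁ i).symm
  have h0 : R.H.map ((tensorRightHomEquiv (Xᘁ⟦i⟧) X Xᘁ ((𝟙_ C)⟦i⟧)).symm φ.hom) = 0 :=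
    (deg_unit (R := R) i hi).eq_of_tgt _ _
  have h1 : φ.hom = (ρ_ (Xᘁ⟦i⟧)).inv ≫ (Xᘁ⟦i⟧ ◁ η_ X Xᘁ) ≫ (α_ _ X Xᘁ).inv ≫
      ((tensorRightHomEquiv (Xᘁ⟦i⟧) X Xᘁ ((𝟙_ C)⟦i⟧)).symm φ.hom) ▷ Xᘁ :=
    ((tensorRightHomEquiv (Xᘁ⟦i⟧) X Xᘁ ((𝟙_ C)⟦i⟧)).apply_symm_apply φ.hom).symm
  have h2 : R.H.map φ.hom = 0 := by
    rw [h1, Functor.map_comp, map_adj_zero hX _ _ h0, comp_zero]
  rw [IsZero.iff_id_eq_zero, ← CategoryTheory.Functor.map_id, ← φ.hom_inv_id, Functor.map_comp, h2,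
    zero_comp]

end Run7.h663.TC
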