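import Pool.Agent.Run7.h985.TC.Stm

/-!
# FTH: injectivity on the unit gives faithfulness on the objects in degree zero
-/

set_option autoImplicit false
set_option linter.unusedSectionVars false
set_option backward.isDefEq.respectTransparency false
set_option backward.defeqAttrib.useBackward true

open CategoryTheory Limits MonoidalCategory Pretriangulated Triangulated

namespace Run7.h663.TC

open Pool.Agent.Y116.MT Pool.Agent.V1178.MT Run7.h822.MT Run7.h985.TC

universe v u w

theorem t_FTH : S_FTH.{v, u, w} := by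
  intro C _ _ _ _ _ _ _ _ _ _ _ _ E _ R hd hI
  refine ⟨?_, ?_⟩
  · intro X Y hX hY f hf
    apply eq_zero_of_nm
    have h1 : R.Deg (Y ⊗ Xᘁ) 0 := by simpa using hY.tensor (hd X hX)
    refine hI.zero (Y ⊗ Xᘁ) (nm f) h1 ?_
    rw [nm, Functor.map_comp, map_whisker_zero hX f hf, comp_zero]
  · intro X Y hX hY n hn f
    have h1 : R.Deg (Y ⊗ Xᘁ) 0 := by simpa using hY.tensor (hd X hX)
    have h2 : ∀ g : X ⟶ Y⟦-n⟧, g = 0 := by
      intro g
      apply eq_zero_of_nm
      have h3 := hI.neg (Y ⊗ Xᘁ) n (nm g ≫ (lShift Y Xᘁ (-n)).hom) h1 hn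
      rw [← cancel_mono (lShift Y Xᘁ (-n)).hom, h3, zero_comp]
    have h4 := h2 ((shiftEquiv C n).unitIso.hom.app X ≫ f⟦-n⟧')
    have h5 : f⟦-n⟧' = 0 := by
      rw [← cancel_epi ((shiftEquiv C n).unitIso.hom.app X), h4, comp_zero]
    apply (shiftFunctor C (-n)).map_injective
    rw [h5, Functor.map_zero]

end Run7.h663.TC
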